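import Mathlib
import Pool.Agent.Lib.MP_9083e4_al.PoisGen

/-!
# Simple Lie algebras of dimension `p ^ 2 - 1` with all proper subalgebras abelian
-/

namespace Pool.Agent.Results.MP_9083e4_al.ImperfectFamily

open Pool.Agent.MP9083

universe u v

/-- Let `p` be a prime and let `F` be a field of characteristic `p` which has a field extension
`E` of degree `p ^ 2` with `x ^ p ∈ F` for all `x ∈ E`. Then `E` carries a nonzero Poisson bracket
over `F` such that `1` is not in the span of its values, and for every such bracket the span of the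
values, with this bracket, is a simple Lie algebra of dimension `p ^ 2 - 1` over `F` all of whose
proper subalgebras are abelian of dimension at most `p - 1`. -/
theorem result {p : ℕ} (hp : p.Prime) {F : Type u} {E : Type v} [Field F] [CharP F p] [Field E]
    [Algebra F E] (hdim : Module.finrank F E = p ^ 2)
    (hpow : ∀ x : E, ∃ c : F, algebraMap F E c = x ^ p) :
    (∃ B : E →ₗ[F] E →ₗ[F] E, IsNonexactPoisson B) ∧
    ∀ B : E →ₗ[F] E →ₗ[F] E, IsNonexactPoisson B →
      ∃ (L : Type v) (_ : LieRing L) (_ : LieAlgebra F L) (ι : L →ₗ[F] E),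
        Function.Injective ι ∧ LinearMap.range ι = Submodule.span F {z : E | ∃ x y, B x y = z} ∧
        (∀ x y, ι ⁅x, y⁆ = B (ι x) (ι y)) ∧ Module.finrank F L = p ^ 2 - 1 ∧
        LieAlgebra.IsSimple F L ∧
        ∀ S : LieSubalgebra F L, S ≠ ⊤ → IsLieAbelian S ∧ Module.finrank F S ≤ p - 1 := by
  have hf := Fact.mk hp
  constructor
  · obtain ⟨P⟩ := exists_pois p hdim hpow
    exact ⟨P.B, P.isNonexactPoisson hdim⟩
  · intro B hB
    obtain ⟨P, rfl⟩ := Pois.exists_of_bracket hdim hB
    refine ⟨P.PL, inferInstance, inferInstance, P.incl, P.incl_inj, ?_, fun x y => rfl,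
      P.finrank_PL hdim, P.simple hdim hpow, fun S hS =>
        ⟨⟨fun x y => Subtype.ext (P.abelian hdim hpow hS x.2 y.2)⟩,
          Pois.finrank_le hdim hpow P hS⟩⟩
    rw [← Pois.ker_eq_span hdim P]
    exact Submodule.range_subtype _

end Pool.Agent.Results.MP_9083e4_al.ImperfectFamily
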