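import Mathlib
import Pool.Agent.Lib.MP_9083e4_al.Solv
import Pool.Agent.Lib.MP_9083e4_al.Alg

/-!
# No examples over finite fields and over perfect `C1` fields of positive characteristic
-/

namespace Pool.Agent.Results.MP_9083e4_al.NoneOverC1

open Pool.Agent.MP9083

/-- Let `F` be a field of characteristic `p > 0` which is algebraic over its prime field (for
instance a finite field), or perfect and `C1` (every form of degree `0 < d < n` in `n` variables
has a nontrivial zero). Then every finite-dimensional Lie algebra over `F` all of whose proper
subalgebras are nilpotent is solvable; in particular none of them is simple. -/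
theorem result {p : ℕ} (hp : p.Prime) {F : Type*} [Field F] [CharP F p]
    (hF : (∀ x : F, ∃ n : ℕ, 0 < n ∧ x ^ p ^ n = x) ∨ (PerfectField F ∧ IsC1 F))
    {L : Type*} [LieRing L] [LieAlgebra F L] [FiniteDimensional F L]
    (hL : ∀ S : LieSubalgebra F L, S ≠ ⊤ → LieRing.IsNilpotent S) :
    LieAlgebra.IsSolvable L ∧ ¬ LieAlgebra.IsSimple F L := by
  have hf := Fact.mk hp
  have hpr : PerfectRing F p := by
    rcases hF with h | h
    · exact perfect_of_frob p h
    · have := h.1
      exact PerfectField.toPerfectRing p
  have hC : IsC1 F := by
    rcases hF with h | h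
    · exact isC1_of_frob p h
    · exact h.2
  exact ⟨solvable_of_C1 p hC hL, fun h => false_of_C1 p hC hL⟩

end Pool.Agent.Results.MP_9083e4_al.NoneOverC1
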