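import Mathlib
import Pool.Agent.Lib.MP_9083e4_al.Zero

/-!
# Over perfect fields the two questions have the same answer
-/

namespace Pool.Agent.Results.MP_9083e4_al.PerfectSame

open Pool.Agent.MP9083

/-- Let `L` be a finite-dimensional simple Lie algebra over a perfect field of any characteristic.
All proper subalgebras of `L` are nilpotent if and only if all of them are abelian. -/
theorem result {F : Type*} [Field F] [PerfectField F] {L : Type*} [LieRing L] [LieAlgebra F L]
    [FiniteDimensional F L] [LieAlgebra.IsSimple F L] :
    (∀ S : LieSubalgebra F L, S ≠ ⊤ → LieRing.IsNilpotent S) ↔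
      ∀ S : LieSubalgebra F L, S ≠ ⊤ → IsLieAbelian S := by
  constructor
  · intro H S hS
    refine ⟨fun x y => Subtype.ext ?_⟩
    obtain ⟨p, hp⟩ := CharP.exists F
    rcases CharP.char_is_prime_or_zero F p with h | h
    · have hf := Fact.mk h
      have hpr : PerfectRing F p := PerfectField.toPerfectRing p
      exact abelian_char_p p H hS x.2 y.2
    · subst h
      have h0 := CharP.charP_to_charZero F
      exact abelian_char_zero H hS x.2 y.2
  · intro H S hS
    have := H S hS
    infer_instance

end Pool.Agent.Results.MP_9083e4_al.PerfectSame
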