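import Mathlib
import Pool.Agent.Lib.MP_9083e4_al.S.Final
import Pool.Agent.Lib.MP_9083e4_al.S.Rank

/-!
# Classification over separably closed fields
-/

namespace Pool.Agent.Results.MP_9083e4_al.SeparablyClosed

open Pool.Agent.MP9083S

universe u v w u₁ u₂

/-- Let `F` be a separably closed field of characteristic `p > 0` and `L` a finite-dimensional Lie
algebra over `F`.

(1) The following are equivalent: `L` is simple and all its proper subalgebras are nilpotent; `L` is
simple and all its proper subalgebras are abelian; `L` is a Lie algebra over a finite extension `E`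
of `F` with a standard basis with `p`-independent parameters `a, b ∈ E`, and `E = F(a', b')` for all
`a', b' ∈ E` with `dlog a ∧ dlog b = n dlog a' ∧ dlog b'` for some integer `n` prime to `p`.

(2) For all `p`-independent elements `a, b` of a field `E` of characteristic `p` there is a Lie
algebra over `E` with a standard basis with the parameters `a, b`.

(3) Lie algebras `L` over `E` and `L'` over `E'` with standard bases with `p`-independent parameters
`a, b` and `a', b'`, where `E` and `E'` are extensions of a field `F`, are isomorphic over `F` if and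
only if there is an isomorphism `φ : E → E'` over `F` with
`dlog φ(a) ∧ dlog φ(b) = n dlog a' ∧ dlog b'` for some integer `n` prime to `p`.

(4) Let `F` be separably closed of characteristic `p` and let `r` elements span `F` over its `p`-th
powers. If some finite-dimensional simple Lie algebra over `F` has only nilpotent proper subalgebras,
then `p ^ 2 ≤ r`. If `r ≤ p ^ 2` then the condition `E = F(a', b')` in (1) holds for all
`p`-independent `a, b` in all finite extensions `E` of `F`. -/
theorem result {p : ℕ} (hp : p.Prime) :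
    (∀ {F : Type u} {L : Type v} [Field F] [CharP F p] [IsSepClosed F] [LieRing L]
      [LieAlgebra F L] [FiniteDimensional F L],
      List.TFAE [
        LieAlgebra.IsSimple F L ∧ ∀ S : LieSubalgebra F L, S ≠ ⊤ → LieRing.IsNilpotent S,
        LieAlgebra.IsSimple F L ∧ ∀ S : LieSubalgebra F L, S ≠ ⊤ → IsLieAbelian S,
        ∃ (E : Type v) (_ : Field E) (_ : Algebra F E) (_ : LieAlgebra E L)
          (_ : IsScalarTower F E L) (a b : E) (u : ℕ → ℕ → L), FiniteDimensional F E ∧
            StdBasis p E L a b u ∧ PInd p a b ∧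
            ∀ a' b' : E, DlogRel p a b a' b' → IntermediateField.adjoin F {a', b'} = ⊤]) ∧
    (∀ {E : Type w} [Field E] [CharP E p] {a b : E}, PInd p a b →
      ∃ (L : Type w) (_ : LieRing L) (_ : LieAlgebra E L) (u : ℕ → ℕ → L),
        StdBasis p E L a b u) ∧
    (∀ {F : Type u} {E : Type w} {L : Type v} {E' : Type u₁} {L' : Type u₂}
      [Field F] [CharP F p] [Field E] [Algebra F E] [LieRing L] [LieAlgebra F L]
      [LieAlgebra E L] [IsScalarTower F E L] [Field E'] [Algebra F E'] [LieRing L']
      [LieAlgebra F L'] [LieAlgebra E' L'] [IsScalarTower F E' L'] {a b : E} {a' b' : E'}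
      {u : ℕ → ℕ → L} {u' : ℕ → ℕ → L'}, StdBasis p E L a b u → PInd p a b →
      StdBasis p E' L' a' b' u' → PInd p a' b' →
      (Nonempty (L ≃ₗ⁅F⁆ L') ↔ ∃ φ : E ≃ₐ[F] E', DlogRel p (φ a) (φ b) a' b')) ∧
    ∀ {F : Type u} [Field F] [CharP F p] [IsSepClosed F] {r : ℕ} {e : Fin r → F},
      (∀ x : F, ∃ c : Fin r → F, ∑ i, c i ^ p * e i = x) →
      (∀ {L : Type v} [LieRing L] [LieAlgebra F L] [FiniteDimensional F L],
        LieAlgebra.IsSimple F L → (∀ S : LieSubalgebra F L, S ≠ ⊤ → LieRing.IsNilpotent S) →
          p ^ 2 ≤ r) ∧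
      (r ≤ p ^ 2 → ∀ {E : Type w} [Field E] [Algebra F E] [FiniteDimensional F E] {a b : E},
        PInd p a b → ∀ a' b' : E, DlogRel p a b a' b' →
          IntermediateField.adjoin F {a', b'} = ⊤) := by
  have hf := Fact.mk hp
  refine ⟨fun {F L} _ _ _ _ _ _ => classification' hp, fun {E} _ _ {a b} h => exists_lie h,
    fun {F E L E' L'} _ _ _ _ _ _ _ _ _ _ _ _ _ _ {a b a' b' u u'} h1 h2 h3 h4 =>
      iso_iff h1 h2 h3 h4, fun {F} _ _ _ {r e} hF => ⟨?_, ?_⟩⟩
  · intro L _ _ _ hL H
    exact not_simple_of_rank hp H hF
  · intro hr E _ _ _ a b hab a' b' h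
    have h1 := le_card_of_pind hF hab
    obtain rfl : r = p ^ 2 := le_antisymm hr h1
    exact adjoin_of_rank hF hab h

end Pool.Agent.Results.MP_9083e4_al.SeparablyClosed
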